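import Mathlib

/-!
Project CK (MP_f663dd_lc): for all infinite cardinals `k ≤ l` the relation
`l → [k]^ω_k` is equivalent to an omega-closed Chang transfer property, and to the existence,
for every colouring of `[l]^ω` with `k` colours, of a set of size `k` with fewer than `k` colours;
the negative relation holds in ZFC for `l = k^{+m}` when `k` is a limit cardinal or `k = n^ω`
with `n < k`; and some colouring of `[k^+]^ω` gives all `k` colours to every set of order type
more than `k`.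
-/

namespace Pool.Agent.Helper83.CK
open Cardinal Set
universe u

/-- `Om X` is the set of all countably infinite subsets of `X`. -/
def Om {α : Type u} (X : Set α) : Set (Set α) := {s | s ⊆ X ∧ #s = ℵ₀}

/-- `A` is closed under all the omega-ary operations `g i`. -/
def Cl {α : Type u} (g : (ℕ → Bool) → (ℕ → α) → α) (A : Set α) : Prop :=
  ∀ (i : ℕ → Bool) (x : ℕ → α), (∀ n, x n ∈ A) → g i x ∈ A

/-- the omega-closed Chang transfer property of `(α, K)`: for every family of continuum many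
operations of arity omega there is a closed set `A` with `|A ∩ K| < |K| ≤ |A|`. -/
def Chang {α : Type u} (K : Set α) : Prop :=
  ∀ g : (ℕ → Bool) → (ℕ → α) → α, ∃ A : Set α, Cl g A ∧ #K ≤ #A ∧ #(A ∩ K : Set α) < #K

/-- the same with `|A| = |K|`. -/
def ChangEq {α : Type u} (K : Set α) : Prop :=
  ∀ g : (ℕ → Bool) → (ℕ → α) → α, ∃ A : Set α, Cl g A ∧ #A = #K ∧ #(A ∩ K : Set α) < #K

/-- the negative square bracket relation for a set `α` of points and a set `γ` of colours. -/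
def Neg (α γ : Type u) : Prop :=
  ∃ f : Set α → γ, ∀ X : Set α, #X = #γ → f '' Om X = Set.univ

/-- some colouring of the countable subsets of `α` with colours in `γ` gives `|γ|` colours to
every set of size `|γ|`. -/
def Big (α γ : Type u) : Prop :=
  ∃ F : Set α → γ, ∀ X : Set α, #X = #γ → #(F '' Om X) = #γ

/-- the elements of `t` that have only finitely many smaller elements in `t`. -/
def fst {α : Type u} [LinearOrder α] (t : Set α) : Set α := {a | a ∈ t ∧ (t ∩ Iio a).Finite}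

/-- MODULE I. Injective choice. PROOF: by `exists_wellOrder`-type results (or by transport from
`(#I).ord.ToType`) take a well-order on `I` with `#(Iio i) < #I` for all `i`. Define `v` by
well-founded recursion: `v i ∈ F i` different from all `v j`, `j < i`; possible as
`#{v j : j < i} ≤ #(Iio i) < #I ≤ #(F i)`. Injective by trichotomy. -/
def StI : Prop := ∀ (I S : Type u) (F : I → Set S), ℵ₀ ≤ #I → (∀ i, #I ≤ #(F i)) →
  ∃ v : I → S, Function.Injective v ∧ ∀ i, v i ∈ F i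

/-- MODULE B. A Bernstein colouring. PROOF from `StI.{0}`: let
`I = {w : Set ℕ // w.Infinite} × (ℕ → Bool)`; `#I = 𝔠` (at most `𝔠 * 𝔠`, and at least `#(ℕ → Bool) = 𝔠`
as `univ` is infinite). `F (w,y) = {v | v ⊆ w ∧ v.Infinite}` has cardinality at least `𝔠`: with an
injection `e : ℕ → ℕ` with range in `w` (`Nat.nth` or `Set.Infinite.natEmbedding`) the map
`S ↦ e '' ({2n} ∪ {2n+1 : n ∈ S})` from `Set ℕ` is injective with values in `F (w,y)`. Take the
injective choice `v`, and let `B s = y` if `s = v (w,y)` for some `w` (then `y` is determined by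
`s`), any value otherwise. -/
def StB : Prop := ∃ B : Set ℕ → (ℕ → Bool), ∀ w : Set ℕ, w.Infinite → ∀ y, ∃ v ⊆ w,
  v.Infinite ∧ B v = y

/-- MODULE R. The Galvin-Kunen colouring of the countable subsets of any set with `𝔠` colours.
PROOF from `StB`: let `C = {a : Set α // a.Countable ∧ a.Infinite}` with a well-order. For `a` in `C`
fix a function `e a : α → ℕ` injective on `a`. For `v` in `C` let `i v` be the least `a` in `C` with
`v ⊆ a` (there is one: `v`). Put `r v = B (e (i v) '' v)`. Given `w` in `C` choose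
`w' ⊆ w` in `C` with `i w'` minimal among `{i v : v ⊆ w, v ∈ C}`, `a = i w'`. Every infinite
`v ⊆ w'` has `v ⊆ w' ⊆ a`, so `i v ≤ a`, and `i v ≥ a` by minimality: `i v = a`. Apply `StB` to the
infinite set `e a '' w'` and `y`: get `v0 ⊆ e a '' w'` infinite, `B v0 = y`, and let
`v = {b ∈ w' | e a b ∈ v0}`; `e a '' v = v0` and `v` is infinite, so `r v = y`. -/
def StR : Prop := ∀ α : Type u, ∃ r : Set α → (ℕ → Bool), ∀ w : Set α, w.Countable → w.Infinite →
  ∀ y, ∃ v ⊆ w, v.Infinite ∧ r v = y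

/-- MODULE H. Erdos-Hajnal: there is an omega-Jonsson function on every infinite set (proof of
Galvin and Prikry). PROOF: let `K` carry a well-order with `#(Iio a) < #K` for all `a`
(transport from `(#K).ord.ToType`). For nonempty `s, t : Set K` write `s ~ t` if for some `ξ ∈ s`,
`s ∩ Ici ξ = t ∩ Ici ξ` (then also `ξ ∈ t`). This is an equivalence relation (transitive: use the
maximum of the two `ξ`, which lies in all three sets). Choose representatives: `rep : Set K → Set K`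
with `rep s ~ s` and `rep s = rep t` if `s ~ t` (nonempty sets). For nonempty `s` with `t = rep s`
let `ξ0` be the least `ξ ∈ s` with `s ∩ Ici ξ = t ∩ Ici ξ` and let `F0 s` be the largest element of
`t ∩ Iio ξ0` if there is one, any value otherwise.
CLAIM: there are `A` with `#A = #K` and `a : K` such that for all `B ⊆ A` with `#B = #K` and all
`c ∈ A` with `a < c` there is `s ⊆ B` with `#s = ℵ₀` and `F0 s = c`. Otherwise, starting from
`A_0 = univ`, build `A_n` (of size `#K`) decreasing and `a_n ∈ A_n` strictly increasing such that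
`F0 s ≠ a_n` for all `s ⊆ A_{n+1}` with `#s = ℵ₀`. Let `y_n = {a_m : m > n} ⊆ A_{n+1}`,
a countable infinite set. All `y_n` are equivalent to `y_0` (`ξ = a_{n+1}`), so they have the same
representative `t`, and `t ∩ Ici a_N = y_0 ∩ Ici a_N` for some `N ≥ 1` (`ξ = a_N ∈ y_0`). For `s = y_N`
the least possible `ξ` is `ξ0 = a_{N+1}` (it works, and it is the least element of `y_N`), and the
largest element of `t ∩ Iio a_{N+1}` is `a_N`. So `F0 y_N = a_N`, a contradiction.
END: `A' = A ∩ Ioi a` has size `#K` (as `#(Iic a) < #K`), so there are a bijection `j : K ≃ A` and a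
bijection `π : A' ≃ K`. Put `H t = π (F0 (j '' t))` if `F0 (j '' t) ∈ A'`, any value otherwise. -/
def StH : Prop := ∀ K : Type u, ℵ₀ ≤ #K → ∃ H : Set K → K, ∀ B : Set K, #B = #K → ∀ c, ∃ s ⊆ B,
  #s = ℵ₀ ∧ H s = c

/-- MODULE F. The first omega elements. PROOF: if `fst X` is finite then `X \ fst X` is not empty,
let `a` be its least element; `X ∩ Iio a ⊆ fst X` is finite, so `a ∈ fst X`, contradiction.
Countable: `a ↦ (X ∩ Iio a).ncard` is injective (strictly increasing) on `fst X`. The last part: for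
`a ∈ u` and `t = u ∪ s`, `t ∩ Iio a ⊆ X ∩ Iio a` is finite. For `b ∈ s`: `b ∉ fst X`, so `X ∩ Iio b` is
infinite; every `a ∈ fst X` is `< b` (otherwise `b < a` or `b = a` and `X ∩ Iio b ⊆ X ∩ Iio a` would be
finite), so `t ∩ Iio b ⊇ u` is infinite. -/
def StF : Prop := ∀ (α : Type u) [LinearOrder α] [WellFoundedLT α] (X : Set α), X.Infinite →
  (fst X).Infinite ∧ (fst X).Countable ∧
  ∀ u ⊆ fst X, ∀ s ⊆ X \ fst X, u.Infinite → fst (u ∪ s) = u ∧ (u ∪ s) \ u = s

/-- MODULE S. Few colours: PROOF from `StR`: a surjection `(ℕ → Bool) → γ` exists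
(`#γ ≤ 𝔠`, `γ` nonempty; mind the universe lift), compose it with `r`. A set `X` with
`#X = #γ ≥ ℵ₀` has a countable infinite subset `w`; the sets `v ⊆ w` infinite are in `Om X`. -/
def StS : Prop := ∀ (α γ : Type u), ℵ₀ ≤ #γ → #γ ≤ 𝔠 → Neg α γ

/-- MODULE D. PROOF from `StR`, `StH`, `StF`: put a well-order on `α` (`linearOrderOfSTO` or
`WellOrderingRel`). Let `F` be the function of `Big`. Let `Q : (ℕ → Bool) → (ℕ → Set ℕ)` be
surjective (both sides have `𝔠` elements). For every countable infinite `s : Set α` fix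
`e s : ℕ → α` injective with range `s` (an injection with any values for other `s`). Let `H` be as in `StH` for
`γ`, `r` as in `StR` for `α`. Colour: for `t : Set α`, `u = fst t`, `s = t \ u`,
`f t = H {c | ∃ n, c = F (e s '' (Q (r u) n))}`. Let `#X = #γ` and `c : γ`. `X` is infinite, `w = fst X`
is countable, `X' = X \ w` has `#X' = #γ` (as `ℵ₀ < #γ`). So `#(F '' Om X') = #γ` and there is
`s0 ⊆ F '' Om X'` with `#s0 = ℵ₀`, `H s0 = c`. Enumerate `s0 = {F (s_n) : n}`, `s_n ∈ Om X'`.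
`s = ⋃ s_n ⊆ X'` is countable infinite. Take `y` with `Q y n = (e s) ⁻¹' s_n` for all `n`;
`e s '' (Q y n) = s_n`. Take `u ⊆ w` infinite with `r u = y`. Then `t = u ∪ s ∈ Om X` and `fst t = u`,
`t \ u = s` (`StF`), so `f t = H s0 = c`. -/
def StD : Prop := ∀ (α γ : Type u), ℵ₀ < #γ → Big α γ → Neg α γ

/-- MODULE T. Terms. PROOF: let `T` be the inductive type with constructors `v : ℕ → T` and
`op : (ℕ → Bool) → (ℕ → T) → T` (in `Type`); `#T ≤ 𝔠` (`WType.cardinalMk_le_of_le'` with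
`𝔠 ^ ℵ₀ = 𝔠`), so there is a surjection `D : (ℕ → Bool) → T`. Let `eval x (v n) = x n`,
`eval x (op i τ) = g i (fun n => eval x (τ n))` and `ev x y = eval x (D y)`. (1) `y` with `D y = v n`.
(2) renaming: `eval x (rename f τ) = eval (x ∘ f) τ`. (3) let `z n = eval (x_n) (τ_n)` with
`x_n : ℕ → X`; put `x (pair n m) = x_n m` (`Nat.pair`), rename the variables of `τ_n` by
`m ↦ pair n m`; then `z n = eval x (τ'_n)` and `g i z = eval x (op i τ')`.
(4) induction on the term. -/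
def StT : Prop := ∀ (α : Type u) (g : (ℕ → Bool) → (ℕ → α) → α),
  ∃ ev : (ℕ → α) → (ℕ → Bool) → α,
    (∀ x n, ∃ y, ev x y = x n) ∧
    (∀ x x' : ℕ → α, (∀ n, ∃ m, x n = x' m) → ∀ y, ∃ y', ev x y = ev x' y') ∧
    (∀ X : Set α, Cl g {b | ∃ x : ℕ → α, (∀ m, x m ∈ X) ∧ ∃ y, b = ev x y}) ∧
    (∀ A : Set α, Cl g A → ∀ x : ℕ → α, (∀ n, x n ∈ A) → ∀ y, ev x y ∈ A)

/-- MODULE E. PROOF from `StR`, `StF`, `StT`: `¬ Chang K` gives `g` such that every closed `A` with
`#K ≤ #A` has `#(A ∩ K) = #K`. Put a well-order on `α`. `ev` from `StT`, `r` from `StR`. Let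
`p : α → γ` be injective on `K` (`#K = #γ`). For every countable infinite `s : Set α` fix `e s : ℕ → α` with
range `s`. Let `F t = p (ev (e s) (r u))` with `u = fst t`, `s = t \ u`. Let `#X = #γ`. `w = fst X` is
countable, `X' = X \ w` has `#X' = #γ > ℵ₀`. `C = {b | ∃ x : ℕ → X', ∃ y, b = ev x y}` is closed and
contains `X'` (constant `x` and part 1), so `#(C ∩ K) = #K`. CLAIM: `p '' (C ∩ K) ⊆ F '' Om X`. Let
`b = ev x y`, `x : ℕ → X'`. Take a countable infinite `s` with `range x ⊆ s ⊆ X'`. By part 2 there is `y'`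
with `b = ev (e s) y'`. Take `u ⊆ w` infinite with `r u = y'`. Then `t = u ∪ s ∈ Om X`, `fst t = u`,
`t \ u = s`, `F t = p b`. So `#(F '' Om X) ≥ #(p '' (C ∩ K)) = #K = #γ`, and `≤ #γ` is trivial. -/
def StE : Prop := ∀ (α γ : Type u) (K : Set α), #K = #γ → ℵ₀ < #γ → ¬ Chang K → Big α γ

/-- MODULE G. PROOF: let `q : γ ≃ K` be a bijection, `F` from `Big`, and
`g i x = q (F (range x))`. Suppose `Chang K`; get a closed `A` with `#K ≤ #A`, `#(A ∩ K) < #K`. Take
`X ⊆ A` with `#X = #K = #γ`. Each `s ∈ Om X` is `range x` for some `x : ℕ → α`, all `x n ∈ A`, so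
`q (F s) ∈ A ∩ K`. So `#γ = #(F '' Om X) ≤ #(A ∩ K) < #K`, a contradiction. -/
def StG : Prop := ∀ (α γ : Type u) (K : Set α), #K = #γ → ℵ₀ ≤ #γ → Big α γ → ¬ Chang K

/-- MODULE W. PROOF from `StT`: the direction from `ChangEq` is trivial. Let `Chang K` hold, `g` a
family, `A` closed with `#K ≤ #A`, `#(A ∩ K) < #K`. Take `X ⊆ A` with `#X = #K` and
`C = {b | ∃ x : ℕ → α, (∀ m, x m ∈ X) ∧ ∃ y, b = ev x y}`; it is closed (part 3), `X ⊆ C`
(part 1, constant sequences), `C ⊆ A` (part 4), and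
`#C ≤ #(ℕ → X) * #(ℕ → Bool) = #K ^ ℵ₀ * 𝔠 ≤ #K` (as `𝔠 = 2 ^ ℵ₀ ≤ #K ^ ℵ₀ = #K`; mind the universe lifts).
So `#C = #K` and `C ∩ K ⊆ A ∩ K`. -/
def StW : Prop := ∀ (α : Type u) (K : Set α), ℵ₀ ≤ #K → #K ^ ℵ₀ = #K → (Chang K ↔ ChangEq K)

/-- MODULE P. Successor step. PROOF: take a well-order on `M` of order type `(#M).ord`, so that every
initial segment `{b ∈ M : b < a}` has size `< #M = succ #L`, so `≤ #L`; for `a ∈ M` choose
`e a : α → α` mapping this segment injectively into `L`. Let `h x = e (x 0) (x 1)` if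
`x 0, x 1 ∈ M` and `x 1 < x 0`, and `h x = x 0` otherwise. Let `A` be closed under `h` and
`ρ = max ℵ₀ #(A ∩ L)`. For `a ∈ A ∩ M` the map `e a` sends `{b ∈ A ∩ M : b < a}` injectively
into `A ∩ L` (use `x 0 = a`, `x n = b` for `n ≥ 1`). So all proper initial segments of the well-ordered set
`A ∩ M` have size `≤ ρ`, hence `#(A ∩ M) ≤ succ ρ` (otherwise the order type of `A ∩ M` is more than
`(succ ρ).ord` and some initial segment has `succ ρ` elements). -/
def StP : Prop := ∀ (α : Type u) (L M : Set α), L ⊆ M → ℵ₀ ≤ #L → #M = Order.succ #L →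
  ∃ h : (ℕ → α) → α, ∀ A : Set α, (∀ x : ℕ → α, (∀ n, x n ∈ A) → h x ∈ A) →
    #(A ∩ M : Set α) ≤ Order.succ (max ℵ₀ #(A ∩ L : Set α))

/-- MODULE Q. Finitely many steps, PROOF from `StP`: choose sets
`K = K_0 ⊆ K_1 ⊆ ... ⊆ K_m` in `α` with `#K_j = succ^[j] #K` for all `j ≤ m` (possible since
`#α = succ^[m] #K`; note that `K_m` may be a proper subset of `α`, for instance for `m = 0`) and an
injection `ι : α → K_m`; take `h_j` from `StP` for `K_j, K_{j+1}`, `h j = h_j` for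
`j < m` and `h j x = ι (x 0)` for `j ≥ m`. By induction on `j ≤ m`:
`#(A ∩ K_j) ≤ succ^[j] (max ℵ₀ #(A ∩ K))`, and `#A ≤ #(A ∩ K_m)` by `ι`. -/
def StQ : Prop := ∀ (m : ℕ) (α : Type u) (K : Set α), ℵ₀ ≤ #K → #α = Order.succ^[m] #K →
  ∃ h : ℕ → (ℕ → α) → α, ∀ A : Set α, (∀ (j : ℕ) (x : ℕ → α), (∀ n, x n ∈ A) → h j x ∈ A) →
    #A ≤ Order.succ^[m] (max ℵ₀ #(A ∩ K : Set α))

/-- MODULE L. Limit cardinals. PROOF from `StQ`: `h` as there; let `θ : (ℕ → Bool) → ℕ` be
surjective and `g i x = h (θ i) x`. If `Chang K` there is a closed `A` with `#K ≤ #A` and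
`ρ = #(A ∩ K) < #K`. `#A ≤ succ^[m] (max ℵ₀ ρ) < #K` (iterate the limit hypothesis, `ℵ₀ < #K`),
a contradiction. -/
def StL : Prop := ∀ (m : ℕ) (α : Type u) (K : Set α), ℵ₀ < #K → (∀ c < #K, Order.succ c < #K) →
  #α = Order.succ^[m] #K → ¬ Chang K

/-- MODULE A. Arithmetic. PROOF: let `ν` be the least cardinal with `k ≤ ν ^ ℵ₀`; `ν ≤ n < k` and
`ν ^ ℵ₀ ≤ n ^ ℵ₀ = k`, so `ν ^ ℵ₀ = k`. For `c < ν`: `c ^ ℵ₀ < k` by minimality, and `c ^ ℵ₀ < ν`: otherwise
`k = ν ^ ℵ₀ ≤ (c ^ ℵ₀) ^ ℵ₀ = c ^ ℵ₀`. (`ν` is infinite and `> 𝔠`: `ν ≤ 𝔠` gives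
`k ≤ 𝔠 ^ ℵ₀ = 𝔠`.) For `c < ν` also `succ c < ν`: otherwise `ν = succ c` (`c` infinite since `𝔠 < ν`, so
`𝔠 ≤ c`); `succ c` is regular and uncountable, so every function `ℕ → (succ c).ord.ToType` is
bounded, and `ν ^ ℵ₀ ≤ succ c * c ^ ℵ₀ ≤ succ c * c = ν` (`c ^ ℵ₀ < ν = succ c`
gives `c ^ ℵ₀ ≤ c`), so `k ≤ ν`, contradicting `ν < k`. -/
def StA : Prop := ∀ n k : Cardinal.{u}, n < k → n ^ ℵ₀ = k → 𝔠 < k →
  ∃ ν : Cardinal.{u}, ν < k ∧ 𝔠 < ν ∧ ν ^ ℵ₀ = k ∧ (∀ c < ν, c ^ ℵ₀ < ν) ∧ ∀ c < ν, Order.succ c < ν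

/-- MODULE N. Cardinals `n ^ ℵ₀`. PROOF from `StA`, `StQ`: take `ν` from `StA` for `k = #K`,
`N ⊆ K` with `#N = ν`, a bijection `b : (ℕ → N) ≃ K` (`ν ^ ℵ₀ = k`), and `h` from `StQ`. Operations:
`b x` if all `x j ∈ N` (otherwise `x 0`); for each `j` the operation `x ↦ (b.symm (x 0)) j`
if `x 0 ∈ K` (otherwise `x 0`); and all `h j`: countably many in all, re-indexed by a surjection from
`ℕ → Bool`. Suppose `Chang K` and take a closed `A`, `#K ≤ #A`, `#(A ∩ K) < #K`. If `#(A ∩ N) = ν`, then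
`b` maps the functions `ℕ → A ∩ N` injectively into `A ∩ K`, so `#(A ∩ K) ≥ ν ^ ℵ₀ = #K`, a
contradiction. So `ρ = #(A ∩ N) < ν`. Every element of `A ∩ K` is `b x` with all `x j ∈ A ∩ N`, so
`#(A ∩ K) ≤ ρ ^ ℵ₀ < ν`. Then `#A ≤ succ^[m] (max ℵ₀ #(A ∩ K)) < ν < #K`, a contradiction. -/
def StN : Prop := ∀ (m : ℕ) (α : Type u) (K : Set α) (n : Cardinal.{u}), n < #K → n ^ ℵ₀ = #K →
  𝔠 < #K → #α = Order.succ^[m] #K → ¬ Chang K

/-- MODULE O. Order types. PROOF from `StH`: write `α = (Order.succ k).ord.ToType`,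
`γ = k.ord.ToType`, `#γ = k`. For `d : α`, `#(Iio d) < succ k`, so `≤ k`: choose `E d : α → γ`
injective on `Iio d`. Let `H` be as in `StH` for `γ`. `f t = H (E m '' (t \ {m}))` if `t` has a greatest
element `m`, any value otherwise. Let `d ∈ X`, `#(X ∩ Iio d) = k`. `B = E d '' (X ∩ Iio d)` has size
`k`; for a colour `c` there is `s ⊆ B`, `#s = ℵ₀`, `H s = c`. Let
`t0 = {a ∈ X ∩ Iio d | E d a ∈ s}` (in bijection with `s`), `t = t0 ∪ {d} ∈ Om X`: its greatest element
is `d`, `t \ {d} = t0` and `E d '' t0 = s`. So `f t = c`. -/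
def StO : Prop := ∀ k : Cardinal.{u}, ℵ₀ ≤ k →
  ∃ f : Set (Order.succ k).ord.ToType → k.ord.ToType,
    ∀ X : Set (Order.succ k).ord.ToType, ∀ d ∈ X, #(X ∩ Iio d : Set _) = k → f '' Om X = Set.univ

end Pool.Agent.Helper83.CK
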