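import Pool.Agent.Helper83.CK.Final
import Pool.Agent.Helper16.CK.M_W
import Pool.Agent.Helper29.CK.M_B
import Pool.Agent.Helper29.CK.M_L
import Pool.Agent.Helper3.CK.M_D
import Pool.Agent.Helper35.CK.M_E
import Pool.Agent.Helper42.CK.M_G
import Pool.Agent.Helper42.CK.M_I
import Pool.Agent.Helper60.CK.M_S
import Pool.Agent.Helper64.CK.M_Q
import Pool.Agent.Helper72.CK.M_N
import Pool.Agent.Helper80.CK.M_T
import Pool.Agent.Helper82.CK.M_F
import Pool.Agent.Helper82.CK.M_R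
import Pool.Agent.Helper84.CK.M_O
import Pool.Agent.Helper85.CK.M_P
import Pool.Agent.Helper90.CK.M_A
import Pool.Agent.Helper93.CK.M_H

set_option autoImplicit false

/-! Project CK: all modules without hypotheses. -/

namespace Pool.Agent.Helper83.CK
open Cardinal Set
universe u

theorem tR : StR.{u} := Pool.Agent.Helper82.CK.mR (Pool.Agent.Helper29.CK.mB Pool.Agent.Helper42.CK.mI)
theorem tH : StH.{u} := Pool.Agent.Helper93.CK.mH
theorem tF : StF.{u} := Pool.Agent.Helper82.CK.mF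
theorem tT : StT.{u} := Pool.Agent.Helper80.CK.mT
theorem tS : StS.{u} := Pool.Agent.Helper60.CK.mS tR
theorem tD : StD.{u} := Pool.Agent.Helper3.CK.mD tR tH tF
theorem tE : StE.{u} := Pool.Agent.Helper35.CK.mE tR tF tT
theorem tG : StG.{u} := Pool.Agent.Helper42.CK.mG
theorem tW : StW.{u} := Pool.Agent.Helper16.CK.mW tT
theorem tP : StP.{u} := Pool.Agent.Helper85.CK.mP
theorem tQ : StQ.{u} := Pool.Agent.Helper64.CK.mQ tP
theorem tL : StL.{u} := Pool.Agent.Helper29.CK.mL tQ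
theorem tA : StA.{u} := Pool.Agent.Helper90.CK.mA
theorem tN : StN.{u} := Pool.Agent.Helper72.CK.mN tA tQ
theorem tO : StO.{u} := Pool.Agent.Helper84.CK.mO tH

/-- `l → [k]^ω_k` if and only if the omega-closed Chang transfer property holds. -/
theorem equiv_chang (k l : Cardinal.{u}) (hk : ℵ₀ ≤ k) (K : Set l.ord.ToType) (hK : #K = k) :
    ¬ NegRel l k ↔ Chang K := (main_equiv tS tD tE tG tW k l hk K hK).2.1

/-- the same for arbitrary sets of points and colours -/
theorem equiv_types (α γ : Type u) (hk : ℵ₀ ≤ #γ) (K : Set α) (hKg : #K = #γ) :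
    (¬ Neg α γ ↔ ∀ F : Set α → γ, ∃ X : Set α, #X = #γ ∧ #(F '' Om X) < #γ) ∧
    (¬ Neg α γ ↔ Chang K) ∧ (#γ ^ ℵ₀ = #γ → (¬ Neg α γ ↔ ChangEq K)) :=
  main_types tS tD tE tG tW α γ hk K hKg

theorem neg_rel (k : Cardinal.{u}) (hk : ℵ₀ ≤ k)
    (h : (∀ c < k, Order.succ c < k) ∨ ∃ n < k, n ^ ℵ₀ = k) (m : ℕ) :
    NegRel (Order.succ^[m] k) k := neg_relations tS tD tE tL tN k hk h m

end Pool.Agent.Helper83.CK
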