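import Pool.Agent.Helper83.CK.St

/-! Assembly of project CK (MP_f663dd_lc). -/

namespace Pool.Agent.Helper83.CK
open Cardinal Set
universe u

/-- The negative square bracket relation `l ↛ [k]^{ℵ₀}_k` for cardinals `l`, `k`, with the initial
ordinals `l.ord` and `k.ord` as the sets of points and of colours: some colouring `f` of the
countably infinite subsets of `l` gives all colours to the countably infinite subsets of every
`X ⊆ l` with `|X| = k`. (Only the values of `f` at countably infinite sets matter.) -/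
def NegRel (l k : Cardinal.{u}) : Prop :=
  ∃ f : Set l.ord.ToType → k.ord.ToType,
    ∀ X : Set l.ord.ToType, #X = k → f '' Om X = Set.univ

theorem negRel_iff (l k : Cardinal.{u}) : NegRel l k ↔ Neg l.ord.ToType k.ord.ToType := by
  unfold NegRel Neg
  simp only [mk_ord_toType]

theorem main_types (hS : StS.{u}) (hD : StD.{u}) (hE : StE.{u}) (hG : StG.{u}) (hW : StW.{u})
    (α γ : Type u) (hk : ℵ₀ ≤ #γ) (K : Set α) (hKg : #K = #γ) :
    (¬ Neg α γ ↔ ∀ F : Set α → γ, ∃ X : Set α, #X = #γ ∧ #(F '' Om X) < #γ) ∧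
    (¬ Neg α γ ↔ Chang K) ∧ (#γ ^ ℵ₀ = #γ → (¬ Neg α γ ↔ ChangEq K)) := by
  have h1 : Neg α γ → Big α γ := by
    rintro ⟨f, hf⟩
    exact ⟨f, fun X hX => by rw [hf X hX]; exact mk_univ⟩
  have h2 : Big α γ → ¬ Chang K := hG α γ K hKg hk
  have h3 : ¬ Chang K → Neg α γ := by
    intro h
    by_cases hc : #γ ≤ 𝔠
    · exact hS α γ hk hc
    · have hlt : ℵ₀ < #γ := lt_of_le_of_lt aleph0_le_continuum (not_le.1 hc)
      exact hD α γ hlt (hE α γ K hKg hlt h)
  have h4 : Big α γ ↔ ¬ ∀ F : Set α → γ, ∃ X : Set α, #X = #γ ∧ #(F '' Om X) < #γ := by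
    unfold Big
    push Not
    refine exists_congr fun F => forall_congr' fun X => ?_
    constructor
    · intro h hX
      exact (h hX).ge
    · intro h hX
      exact le_antisymm (mk_set_le _) (h hX)
  have e1 : Neg α γ ↔ ¬ Chang K := ⟨fun h => h2 (h1 h), h3⟩
  have e2 : Neg α γ ↔ Big α γ := ⟨h1, fun h => h3 (h2 h)⟩
  refine ⟨?_, ?_, ?_⟩
  · rw [e2, h4, not_not]
  · rw [e1, not_not]
  · intro hp
    rw [e1, not_not]
    exact hW α K (by rw [hKg]; exact hk) (by rw [hKg]; exact hp)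

theorem main_equiv (hS : StS.{u}) (hD : StD.{u}) (hE : StE.{u}) (hG : StG.{u}) (hW : StW.{u})
    (k l : Cardinal.{u}) (hk : ℵ₀ ≤ k) (K : Set l.ord.ToType) (hK : #K = k) :
    (¬ NegRel l k ↔ ∀ F : Set l.ord.ToType → k.ord.ToType,
      ∃ X : Set l.ord.ToType, #X = k ∧ #(F '' Om X) < k) ∧
    (¬ NegRel l k ↔ Chang K) ∧ (k ^ ℵ₀ = k → (¬ NegRel l k ↔ ChangEq K)) := by
  have hg : #k.ord.ToType = k := mk_ord_toType k
  have h := main_types hS hD hE hG hW l.ord.ToType k.ord.ToType (by rw [hg]; exact hk) K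
    (by rw [hK, hg])
  rw [hg] at h
  rw [negRel_iff]
  exact h

theorem exists_subset_card (l k : Cardinal.{u}) (h : k ≤ l) :
    ∃ K : Set l.ord.ToType, #K = k := by
  have : k ≤ #(l.ord.ToType) := by rw [mk_ord_toType]; exact h
  obtain ⟨K, hK⟩ := le_mk_iff_exists_set.1 this
  exact ⟨K, hK⟩

theorem le_succ_iter (m : ℕ) (k : Cardinal.{u}) : k ≤ Order.succ^[m] k := by
  induction m with
  | zero => simp
  | succ m ih =>
      rw [Function.iterate_succ_apply']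
      exact ih.trans (Order.le_succ _)

theorem neg_relations (hS : StS.{u}) (hD : StD.{u}) (hE : StE.{u}) (hL : StL.{u}) (hN : StN.{u})
    (k : Cardinal.{u}) (hk : ℵ₀ ≤ k)
    (h : (∀ c < k, Order.succ c < k) ∨ ∃ n < k, n ^ ℵ₀ = k) (m : ℕ) :
    NegRel (Order.succ^[m] k) k := by
  rw [negRel_iff]
  set l := Order.succ^[m] k with hl
  set α := l.ord.ToType with hα
  set γ := k.ord.ToType with hγ
  have hg : #γ = k := mk_ord_toType k
  by_cases hc : #γ ≤ 𝔠
  · exact hS α γ (by rw [hg]; exact hk) hc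
  · have hlt : ℵ₀ < #γ := lt_of_le_of_lt aleph0_le_continuum (not_le.1 hc)
    obtain ⟨K, hK⟩ := exists_subset_card l k (le_succ_iter m k)
    have hKg : #K = #γ := by rw [hK, hg]
    have hal : #α = Order.succ^[m] #K := by rw [hK, hα, mk_ord_toType]
    have hch : ¬ Chang K := by
      rcases h with h | ⟨n, hn, hnk⟩
      · exact hL m α K (by rw [hKg]; exact hlt) (by rw [hK]; exact h) hal
      · exact hN m α K n (by rw [hK]; exact hn) (by rw [hK]; exact hnk)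
          (by rw [hKg]; exact not_le.1 hc) hal
    exact hD α γ hlt (hE α γ K hKg hlt hch)

theorem q1_inst (hS : StS.{u}) (hD : StD.{u}) (hE : StE.{u}) (hG : StG.{u}) (hW : StW.{u})
    (hpow : ∀ c : Cardinal.{u}, ℵ₀ ≤ c → c ^ ℵ₀ ≤ c → (Order.succ c) ^ ℵ₀ ≤ Order.succ c)
    (l : Cardinal.{u}) (K : Set l.ord.ToType)
    (hK : #K = Order.succ 𝔠) :
    (¬ NegRel l (Order.succ 𝔠) ↔ ∀ F : Set l.ord.ToType → (Order.succ (𝔠 : Cardinal.{u})).ord.ToType,
      ∃ X : Set l.ord.ToType, #X = Order.succ 𝔠 ∧ #(F '' Om X) ≤ 𝔠) ∧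
    (¬ NegRel l (Order.succ 𝔠) ↔ ∀ g : (ℕ → Bool) → (ℕ → l.ord.ToType) → l.ord.ToType,
      ∃ A : Set l.ord.ToType, Cl g A ∧ #A = Order.succ 𝔠 ∧ #(A ∩ K : Set _) ≤ 𝔠) := by
  have hk : ℵ₀ ≤ Order.succ (𝔠 : Cardinal.{u}) := aleph0_le_continuum.trans (Order.le_succ _)
  obtain ⟨h1, -, h3⟩ := main_equiv hS hD hE hG hW (Order.succ 𝔠) l hk K hK
  have hp : (Order.succ (𝔠 : Cardinal.{u})) ^ ℵ₀ = Order.succ 𝔠 :=
    le_antisymm (hpow 𝔠 aleph0_le_continuum (by rw [continuum_power_aleph0]))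
      (self_le_power _ (by exact_mod_cast one_le_aleph0))
  have h3 := h3 hp
  refine ⟨?_, ?_⟩
  · rw [h1]; simp only [Order.lt_succ_iff]
  · rw [h3]; unfold ChangEq; simp only [hK, Order.lt_succ_iff]

theorem pos_only (hS : StS.{u})
    (hneg : ∀ k : Cardinal.{u}, ℵ₀ ≤ k → ((∀ c < k, Order.succ c < k) ∨ ∃ n < k, n ^ ℵ₀ = k) →
      ∀ m, NegRel (Order.succ^[m] k) k)
    (k : Cardinal.{u}) (hk : ℵ₀ ≤ k) (h : ¬ NegRel (Order.succ k) k) :
    ∃ μ : Cardinal.{u}, k = Order.succ μ ∧ 𝔠 ≤ μ ∧ (μ ^ ℵ₀ = μ ∨ k < μ ^ ℵ₀) := by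
  have hck : 𝔠 < k := by
    by_contra hcon
    apply h
    rw [negRel_iff]
    exact hS _ _ (by rw [mk_ord_toType]; exact hk) (by rw [mk_ord_toType]; exact not_lt.1 hcon)
  have h1 : ¬ ((∀ c < k, Order.succ c < k) ∨ ∃ n < k, n ^ ℵ₀ = k) := fun hh => h (hneg k hk hh 1)
  push Not at h1
  obtain ⟨⟨μ, hμ, hμk⟩, h2⟩ := h1
  have hks : k = Order.succ μ := le_antisymm hμk (Order.succ_le_of_lt hμ)
  refine ⟨μ, hks, ?_, ?_⟩
  · rw [hks] at hck
    exact Order.lt_succ_iff.1 hck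
  · rcases lt_trichotomy (μ ^ ℵ₀) k with h3 | h3 | h3
    · left
      rw [hks] at h3
      exact le_antisymm (Order.lt_succ_iff.1 h3) (self_le_power _ (by exact_mod_cast one_le_aleph0))
    · exact absurd h3 (h2 μ hμ)
    · exact Or.inr h3

end Pool.Agent.Helper83.CK
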